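import Mathlib
import Pool.Agent.Helper92.ABC.Defs
import Pool.Agent.Helper4.ABC.Sizes
import Pool.Agent.Helper94.ABC.TV
import Pool.Agent.Helper51.ABC.PairFiber

set_option autoImplicit false

/-!
# The pair tool for boxes of abc-triples, from the pair fibre and the size lemmas
-/

namespace Pool.Agent.Helper92.ABC

open Finset

lemma wt_congr' (S : Finset ℕ) (k k' : ℕ → ℕ) (h : ∀ i ∈ S, k i = k' i) :
    wt S k = wt S k' := by
  unfold wt
  exact Finset.sum_congr rfl (fun i hi => by rw [h i hi])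

lemma rc_congr' (j : ℕ) (S : Finset ℕ) (k k' : ℕ → ℕ) (h : ∀ i ∈ S, k i = k' i)
    (h6 : k 6 = k' 6) : rc j S k = rc j S k' := by
  unfold rc
  rw [h6, Finset.sum_congr rfl (fun i hi => by rw [h i hi])]

/-- the members of a triple are pairwise coprime -/
lemma num_coprime {t : ℕ × ℕ} (h : t.1.Coprime t.2) {p q : Fin 3} (hpq : p ≠ q) :
    (num t p).Coprime (num t q) := by
  obtain ⟨a, b⟩ := t
  have h1 : b.Coprime a := Nat.Coprime.symm h
  fin_cases p <;> fin_cases q <;> simp [num] at hpq h ⊢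
  all_goals first | exact h | exact h1

/-- the signs of the linear relation -/
def sgn3 : Fin 3 → ℤ := ![1, 1, -1]

lemma sgn3_unit (n : Fin 3) : IsUnit (sgn3 n) := by
  fin_cases n <;> simp [sgn3]

lemma coprime_of_unit {a b : ℤ} (h : IsUnit a) : IsCoprime a b := by
  obtain ⟨v, hv⟩ := isUnit_iff_exists_inv.1 h
  exact ⟨v, 0, by linear_combination hv⟩

lemma sgn3_rel (t : ℕ × ℕ) {p q r : Fin 3} (hpq : p ≠ q) (hpr : p ≠ r) (hqr : q ≠ r) :
    sgn3 q * (num t q : ℤ) - (-sgn3 r) * (num t r : ℤ) = (-sgn3 p) * (num t p : ℤ) := by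
  obtain ⟨a, b⟩ := t
  fin_cases p <;> fin_cases q <;> fin_cases r <;> simp [num, sgn3] at hpq hpr hqr ⊢ <;> ring

/-- the size of the second summand -/
lemma pair_size (z : ℝ) (hz : 2 ≤ z) (e : ℕ) (he : e ≤ 16) (al be r1 : ℕ) (m : ℝ)
    (hm : z ^ r1 ≤ m) :
    z ^ (be + e) * (z ^ (al + e)) ^ 2 / (z ^ al * m) ≤ z ^ ((al : ℤ) + be - r1 + 48) := by
  have hz0 : 0 < z := by linarith
  have hz1 : 1 ≤ z := by linarith
  have h1 : z ^ (be + e) * (z ^ (al + e)) ^ 2 / (z ^ al * m) ≤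
      z ^ (be + e) * (z ^ (al + e)) ^ 2 / (z ^ al * z ^ r1) := by
    apply div_le_div_of_nonneg_left (by positivity) (by positivity)
    exact mul_le_mul_of_nonneg_left hm (by positivity)
  refine h1.trans ?_
  have h2 : z ^ (be + e) * (z ^ (al + e)) ^ 2 / (z ^ al * z ^ r1) =
      z ^ ((al : ℤ) + be - r1 + 3 * e) := by
    rw [← pow_mul, ← pow_add, ← pow_add, ← zpow_natCast, ← zpow_natCast, ← zpow_sub₀ hz0.ne']
    congr 1
    push_cast
    ring
  rw [h2]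
  apply zpow_le_zpow_right₀ hz1
  have : (e : ℤ) ≤ 16 := by exact_mod_cast he
  linarith

theorem tool_pair (ε : ℝ) (hε : 0 < ε) : ∃ C : ℝ, 0 < C ∧ ∀ (Z Q : ℕ) (k : Fin 3 → ℕ → ℕ)
    (j : ℕ) (p q r : Fin 3) (U : Fin 3 → Finset ℕ), 2 ≤ Z → 1 ≤ j → j ≤ 4 →
    p ≠ q → p ≠ r → q ≠ r → (∀ n, U n ⊆ full) →
    (j = 1 ∨ ∀ i ∈ full \ U q, i < 5 ∧ j ∣ i) → (j = 1 ∨ ∀ i ∈ full \ U r, i < 5 ∧ j ∣ i) →
    ((Box Z Q k).card : ℝ) ≤ C * ((Z : ℝ) ^ Q) ^ ε * (Z : ℝ) ^ (∑ n, wt (U n) (k n)) *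
      (1 + (Z : ℝ) ^ ((rc j (full \ U q) (k q) : ℤ) + rc j (full \ U r) (k r)
        - rc 1 (U p) (k p) + 48)) := by
  classical
  obtain ⟨C1, hC1, hcu⟩ := card_radn_le (ε / 4) (by positivity)
  obtain ⟨G1, hG1, hg1⟩ := pair_fiber 1 (by norm_num) (ε / 4) (by positivity)
  obtain ⟨G2, hG2, hg2⟩ := pair_fiber 2 (by norm_num) (ε / 4) (by positivity)
  obtain ⟨G3, hG3, hg3⟩ := pair_fiber 3 (by norm_num) (ε / 4) (by positivity)
  obtain ⟨G4, hG4, hg4⟩ := pair_fiber 4 (by norm_num) (ε / 4) (by positivity)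
  obtain ⟨G, hG, hg⟩ : ∃ G : ℝ, 0 < G ∧ ∀ (j : ℕ), 1 ≤ j → j ≤ 4 →
      ∀ (m : ℕ) (u v : ℤ) (A0 A1 B1 : ℝ) (F : Finset (ℕ × ℕ)),
      1 ≤ m → IsCoprime u (m : ℤ) → IsCoprime v (m : ℤ) → 1 ≤ A0 → 1 ≤ A1 → 1 ≤ B1 →
      (∀ P ∈ F, 0 < P.1 ∧ 0 < P.2 ∧ P.1.Coprime P.2 ∧ P.1.Coprime m ∧ P.2.Coprime m ∧
        A0 ≤ (P.1 : ℝ) ∧ (P.1 : ℝ) ≤ A1 ∧ (P.2 : ℝ) ≤ B1 ∧
        (m : ℤ) ∣ u * (P.1 : ℤ) ^ j - v * (P.2 : ℤ) ^ j) →
      (F.card : ℝ) ≤ G * (m : ℝ) ^ (ε / 4) * (1 + B1 * A1 ^ 2 / (A0 * m)) := by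
    refine ⟨G1 + G2 + G3 + G4, by positivity, ?_⟩
    intro j hj hj4 m u v A0 A1 B1 F h1 h2 h3 h4 h5 h6 h7
    have hX : 0 ≤ (m : ℝ) ^ (ε / 4) * (1 + B1 * A1 ^ 2 / (A0 * m)) := by
      have : 0 ≤ B1 := by linarith
      have : 0 ≤ A0 := by linarith
      positivity
    obtain rfl | rfl | rfl | rfl : j = 1 ∨ j = 2 ∨ j = 3 ∨ j = 4 := by omega
    · have := hg1 m u v A0 A1 B1 F h1 h2 h3 h4 h5 h6 h7
      nlinarith
    · have := hg2 m u v A0 A1 B1 F h1 h2 h3 h4 h5 h6 h7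
      nlinarith
    · have := hg3 m u v A0 A1 B1 F h1 h2 h3 h4 h5 h6 h7
      nlinarith
    · have := hg4 m u v A0 A1 B1 F h1 h2 h3 h4 h5 h6 h7
      nlinarith
  refine ⟨C1 ^ 3 * G, by positivity, ?_⟩
  intro Z Q k j p q r U hZ hj hj4 hpq hpr hqr hU hVq hVr
  have hz : (2 : ℝ) ≤ (Z : ℝ) := by exact_mod_cast hZ
  have hz0 : (0 : ℝ) < (Z : ℝ) := by linarith
  have hz1 : (1 : ℝ) ≤ (Z : ℝ) := by linarith
  have hZ0 : 0 < Z := by omega
  -- the facts for members of the box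
  have hbox : ∀ t ∈ Box Z Q k, t.1.Coprime t.2 ∧ (∀ n, num t n ≠ 0) ∧
      (∀ n, num t n ≤ Z ^ Q) ∧ (∀ n : Fin 3, ∀ i ∈ Finset.Icc 1 6,
        Nat.log Z (coord (num t n) i) = k n i) := by
    intro t ht
    simp only [Box, Finset.mem_filter, Finset.mem_product, Finset.mem_Icc] at ht
    obtain ⟨⟨⟨ha1, ha2⟩, ⟨hb1, hb2⟩⟩, hco, hs, hk⟩ := ht
    refine ⟨hco, ?_, ?_, ?_⟩
    · intro n
      have := num_pos ha1 hb1 n
      omega
    · intro n
      exact num_le hs n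
    · intro n i hi
      exact hk n i (Finset.mem_Icc.1 hi)
  have hkU : ∀ t ∈ Box Z Q k, ∀ n : Fin 3, ∀ S : Finset ℕ, S ⊆ full →
      wt S (fun i => Nat.log Z (coord (num t n) i)) = wt S (k n) := by
    intro t ht n S hS
    apply wt_congr'
    intro i hi
    exact (hbox t ht).2.2.2 n i (Finset.Icc_subset_Icc_right (by norm_num) (hS hi))
  have hkR : ∀ t ∈ Box Z Q k, ∀ n : Fin 3, ∀ (j : ℕ) (S : Finset ℕ), S ⊆ full →
      rc j S (fun i => Nat.log Z (coord (num t n) i)) = rc j S (k n) := by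
    intro t ht n j S hS
    apply rc_congr'
    · intro i hi
      exact (hbox t ht).2.2.2 n i (Finset.Icc_subset_Icc_right (by norm_num) (hS hi))
    · exact (hbox t ht).2.2.2 n 6 (Finset.mem_Icc.2 ⟨by norm_num, le_rfl⟩)
  have hsub : ∀ n, full \ U n ⊆ full := fun n => Finset.sdiff_subset
  -- decomposition of the numbers
  have hdec : ∀ t ∈ Box Z Q k, ∀ n : Fin 3, (j = 1 ∨ ∀ i ∈ full \ U n, i < 5 ∧ j ∣ i) →
      part (U n) (num t n) * rootp j (full \ U n) (num t n) ^ j = num t n := by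
    intro t ht n hV
    rw [← part_eq_rootp_pow j hj (full \ U n) (hsub n) hV (num t n)]
    exact part_mul_part (U n) (hU n) (num t n) ((hbox t ht).2.1 n)
  have hpd : ∀ t ∈ Box Z Q k, ∀ n : Fin 3, part (U n) (num t n) ∣ num t n := by
    intro t ht n
    exact ⟨_, (part_mul_part (U n) (hU n) (num t n) ((hbox t ht).2.1 n)).symm⟩
  have hpp : ∀ t ∈ Box Z Q k, ∀ n : Fin 3, 0 < part (U n) (num t n) := by
    intro t ht n
    exact Nat.pos_of_ne_zero (part_ne_zero _ _)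
  set f : ℕ × ℕ → (Fin 3 → ℕ) := fun t n => part (U n) (num t n) with hf
  set g : ℕ × ℕ → ℕ × ℕ := fun t =>
    (rootp j (full \ U q) (num t q), rootp j (full \ U r) (num t r)) with hgdef
  set T : Fin 3 → Finset ℕ := fun n =>
    (Finset.Icc 1 (Z ^ Q)).filter (fun d => radn d ≤ Z ^ wt (U n) (k n)) with hT
  have hTm : ∀ t ∈ Box Z Q k, ∀ n : Fin 3, part (U n) (num t n) ∈ T n := by
    intro t ht n
    simp only [hT, Finset.mem_filter, Finset.mem_Icc]
    refine ⟨⟨hpp t ht n, ?_⟩, ?_⟩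
    · exact (Nat.le_of_dvd (Nat.pos_of_ne_zero ((hbox t ht).2.1 n)) (hpd t ht n)).trans
        ((hbox t ht).2.2.1 n)
    · rw [radn_part, ← hkU t ht n (U n) (hU n)]
      exact rpart_upper Z hZ (U n) (hU n) (num t n) ((hbox t ht).2.1 n)
  have hTc : ∀ n : Fin 3, ((T n).card : ℝ) ≤
      C1 * ((Z : ℝ) ^ Q) ^ (ε / 4) * (Z : ℝ) ^ wt (U n) (k n) := by
    intro n
    have := hcu (Z ^ Q) (Z ^ wt (U n) (k n))
    push_cast at this
    exact this
  set e : ℤ := (rc j (full \ U q) (k q) : ℤ) + rc j (full \ U r) (k r)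
        - rc 1 (U p) (k p) + 48 with he
  have hze : (0 : ℝ) ≤ (Z : ℝ) ^ e := (zpow_pos hz0 e).le
  -- the fibres
  have hfib : ∀ b ∈ Fintype.piFinset T,
      (((Box Z Q k).filter (fun t => f t = b)).card : ℝ) ≤
      G * ((Z : ℝ) ^ Q) ^ (ε / 4) * (1 + (Z : ℝ) ^ e) := by
    intro b hb
    rcases ((Box Z Q k).filter (fun t => f t = b)).eq_empty_or_nonempty with h0 | ⟨t0, ht0⟩
    · rw [h0]
      simp only [Finset.card_empty, Nat.cast_zero]
      positivity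
    rw [Finset.mem_filter] at ht0
    obtain ⟨ht0, hft0⟩ := ht0
    have hbn : ∀ n, b n = part (U n) (num t0 n) := fun n => by rw [← hft0]
    have hcard : (((Box Z Q k).filter (fun t => f t = b)).image g).card =
        ((Box Z Q k).filter (fun t => f t = b)).card := by
      apply Finset.card_image_of_injOn
      intro t ht t' ht' htt
      rw [Finset.mem_coe, Finset.mem_filter] at ht ht'
      have hff : f t = f t' := ht.2.trans ht'.2.symm
      have hffn : ∀ n, part (U n) (num t n) = part (U n) (num t' n) := fun n => congrFun hff n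
      simp only [hgdef, Prod.mk.injEq] at htt
      have h0 : num t q = num t' q := by
        rw [← hdec t ht.1 q hVq, ← hdec t' ht'.1 q hVq, hffn q, htt.1]
      have h1 : num t r = num t' r := by
        rw [← hdec t ht.1 r hVr, ← hdec t' ht'.1 r hVr, hffn r, htt.2]
      exact num_inj hqr h0 h1
    rw [← hcard]
    have hco0 : ∀ {x y : Fin 3}, x ≠ y → (num t0 x).Coprime (num t0 y) := fun hxy =>
      num_coprime (hbox t0 ht0).1 hxy
    obtain ⟨d, hd16, hdu⟩ : ∃ d : ℕ, d ≤ 16 ∧ d = (if j = 1 then 16 else 3) := by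
      by_cases hj1 : j = 1
      · exact ⟨16, le_rfl, by rw [if_pos hj1]⟩
      · exact ⟨3, by norm_num, by rw [if_neg hj1]⟩
    have hone : ∀ a : ℕ, (1 : ℝ) ≤ (Z : ℝ) ^ a := fun a => one_le_pow₀ hz1
    have key := hg j hj hj4 (b p) (sgn3 q * (b q : ℤ)) ((-sgn3 r) * (b r : ℤ))
      ((Z : ℝ) ^ (rc j (full \ U q) (k q))) ((Z : ℝ) ^ (rc j (full \ U q) (k q) + d))
      ((Z : ℝ) ^ (rc j (full \ U r) (k r) + d))
      (((Box Z Q k).filter (fun t => f t = b)).image g)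
      (by rw [hbn]; exact hpp t0 ht0 p)
      (by
        rw [hbn, hbn]
        refine IsCoprime.mul_left ?_ ?_
        · exact coprime_of_unit (sgn3_unit q)
        · exact Nat.isCoprime_iff_coprime.2
            (Nat.Coprime.of_dvd (hpd t0 ht0 q) (hpd t0 ht0 p) (hco0 hpq.symm)))
      (by
        rw [hbn, hbn]
        refine IsCoprime.mul_left ?_ ?_
        · exact coprime_of_unit (sgn3_unit r).neg
        · exact Nat.isCoprime_iff_coprime.2
            (Nat.Coprime.of_dvd (hpd t0 ht0 r) (hpd t0 ht0 p) (hco0 hpr.symm)))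
      (hone _) (hone _) (hone _)
      (by
        intro P hP
        rw [Finset.mem_image] at hP
        obtain ⟨t, ht, rfl⟩ := hP
        rw [Finset.mem_filter] at ht
        obtain ⟨ht, hft⟩ := ht
        have hbt : ∀ n, b n = part (U n) (num t n) := fun n => by rw [← hft]
        have hlow : ∀ n : Fin 3, (j = 1 ∨ ∀ i ∈ full \ U n, i < 5 ∧ j ∣ i) →
            Z ^ rc j (full \ U n) (k n) ≤ rootp j (full \ U n) (num t n) := by
          intro n hV
          have := rootp_lower Z hZ j hj (full \ U n) (hsub n) hV (num t n)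
            ((hbox t ht).2.1 n)
          rwa [hkR t ht n j (full \ U n) (hsub n)] at this
        have hupp : ∀ n : Fin 3, (j = 1 ∨ ∀ i ∈ full \ U n, i < 5 ∧ j ∣ i) →
            rootp j (full \ U n) (num t n) ≤ Z ^ (rc j (full \ U n) (k n) + d) := by
          intro n hV
          have := rootp_upper Z hZ j hj (full \ U n) (hsub n) hV (num t n)
            ((hbox t ht).2.1 n)
          rwa [hkR t ht n j (full \ U n) (hsub n), ← hdu] at this
        have hpos : ∀ n : Fin 3, (j = 1 ∨ ∀ i ∈ full \ U n, i < 5 ∧ j ∣ i) →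
            0 < rootp j (full \ U n) (num t n) := fun n hV =>
          lt_of_lt_of_le (by positivity) (hlow n hV)
        have hco : ∀ {x y : Fin 3}, x ≠ y → (num t x).Coprime (num t y) := fun hxy =>
          num_coprime (hbox t ht).1 hxy
        have hrd : ∀ n : Fin 3, (j = 1 ∨ ∀ i ∈ full \ U n, i < 5 ∧ j ∣ i) →
            rootp j (full \ U n) (num t n) ∣ num t n := by
          intro n hV
          exact (dvd_pow_self _ (by omega)).trans
            (Dvd.intro_left (part (U n) (num t n)) (hdec t ht n hV))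
        simp only [hgdef]
        refine ⟨hpos q hVq, hpos r hVr, ?_, ?_, ?_, ?_, ?_, ?_, ?_⟩
        · exact Nat.Coprime.of_dvd (hrd q hVq) (hrd r hVr) (hco hqr)
        · rw [hbt p]
          exact Nat.Coprime.of_dvd (hrd q hVq) (hpd t ht p) (hco hpq.symm)
        · rw [hbt p]
          exact Nat.Coprime.of_dvd (hrd r hVr) (hpd t ht p) (hco hpr.symm)
        · exact_mod_cast hlow q hVq
        · exact_mod_cast hupp q hVq
        · exact_mod_cast hupp r hVr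
        · have h1 : (sgn3 q * (b q : ℤ)) * (rootp j (full \ U q) (num t q) : ℤ) ^ j -
              ((-sgn3 r) * (b r : ℤ)) * (rootp j (full \ U r) (num t r) : ℤ) ^ j =
              (-sgn3 p) * (num t p : ℤ) := by
            rw [← sgn3_rel t hpq hpr hqr, mul_assoc, mul_assoc]
            have h2 : (b q : ℤ) * (rootp j (full \ U q) (num t q) : ℤ) ^ j = (num t q : ℤ) := by
              rw [hbt q]
              exact_mod_cast hdec t ht q hVq
            have h3 : (b r : ℤ) * (rootp j (full \ U r) (num t r) : ℤ) ^ j = (num t r : ℤ) := by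
              rw [hbt r]
              exact_mod_cast hdec t ht r hVr
            rw [h2, h3]
          rw [h1, hbt p]
          exact Dvd.dvd.mul_left (Int.natCast_dvd_natCast.2 (hpd t ht p)) _)
    refine key.trans ?_
    have hbp1 : ((b p : ℕ) : ℝ) ≤ (Z : ℝ) ^ Q := by
      have := hTm t0 ht0 p
      simp only [hT, Finset.mem_filter, Finset.mem_Icc] at this
      rw [hbn p]
      exact_mod_cast this.1.2
    have hbp2 : (Z : ℝ) ^ rc 1 (U p) (k p) ≤ ((b p : ℕ) : ℝ) := by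
      have h1 := rootp_lower Z hZ 1 le_rfl (U p) (hU p) (Or.inl rfl) (num t0 p)
        ((hbox t0 ht0).2.1 p)
      rw [hkR t0 ht0 p 1 (U p) (hU p)] at h1
      have h2 := part_eq_rootp_pow 1 le_rfl (U p) (hU p) (Or.inl rfl) (num t0 p)
      rw [pow_one] at h2
      rw [hbn p, h2]
      exact_mod_cast h1
    have hsz := pair_size (Z : ℝ) hz d hd16 (rc j (full \ U q) (k q)) (rc j (full \ U r) (k r))
      (rc 1 (U p) (k p)) (b p : ℝ) hbp2
    have hrp : ((b p : ℕ) : ℝ) ^ (ε / 4) ≤ ((Z : ℝ) ^ Q) ^ (ε / 4) :=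
      Real.rpow_le_rpow (Nat.cast_nonneg _) hbp1 (by positivity)
    have hnn : (0 : ℝ) ≤ ((Z : ℝ) ^ Q) ^ (ε / 4) := by positivity
    have hbp0 : (0 : ℝ) ≤ ((b p : ℕ) : ℝ) := Nat.cast_nonneg _
    gcongr
  -- the total
  have hmaps : ∀ t ∈ Box Z Q k, f t ∈ Fintype.piFinset T := by
    intro t ht
    rw [Fintype.mem_piFinset]
    exact fun n => hTm t ht n
  have htot : ((Box Z Q k).card : ℝ) ≤ ((Fintype.piFinset T).card : ℝ) *
      (G * ((Z : ℝ) ^ Q) ^ (ε / 4) * (1 + (Z : ℝ) ^ e)) := by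
    rw [Finset.card_eq_sum_card_fiberwise (f := f) (t := Fintype.piFinset T) hmaps]
    push_cast
    have := Finset.sum_le_card_nsmul (Fintype.piFinset T)
      (fun b => (((Box Z Q k).filter (fun t => f t = b)).card : ℝ)) _ hfib
    rw [nsmul_eq_mul] at this
    exact this
  refine htot.trans ?_
  have hc3 : ((Fintype.piFinset T).card : ℝ) ≤
      C1 ^ 3 * (((Z : ℝ) ^ Q) ^ (ε / 4)) ^ 3 * (Z : ℝ) ^ (∑ n, wt (U n) (k n)) := by
    rw [Fintype.card_piFinset, Fin.prod_univ_three]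
    push_cast
    have h0 := hTc 0
    have h1 := hTc 1
    have h2 := hTc 2
    calc ((T 0).card : ℝ) * ((T 1).card : ℝ) * ((T 2).card : ℝ)
        ≤ (C1 * ((Z : ℝ) ^ Q) ^ (ε / 4) * (Z : ℝ) ^ wt (U 0) (k 0)) *
          (C1 * ((Z : ℝ) ^ Q) ^ (ε / 4) * (Z : ℝ) ^ wt (U 1) (k 1)) *
          (C1 * ((Z : ℝ) ^ Q) ^ (ε / 4) * (Z : ℝ) ^ wt (U 2) (k 2)) := by
          gcongr
      _ = _ := by
          rw [Fin.sum_univ_three, pow_add, pow_add]
          ring
  have hpw : (((Z : ℝ) ^ Q) ^ (ε / 4)) ^ 3 * ((Z : ℝ) ^ Q) ^ (ε / 4) =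
      ((Z : ℝ) ^ Q) ^ ε := by
    have hzq : (0 : ℝ) ≤ (Z : ℝ) ^ Q := by positivity
    rw [← Real.rpow_natCast (((Z : ℝ) ^ Q) ^ (ε / 4)) 3,
      ← Real.rpow_mul hzq, ← Real.rpow_add (by positivity)]
    congr 1
    push_cast
    ring
  calc ((Fintype.piFinset T).card : ℝ) *
      (G * ((Z : ℝ) ^ Q) ^ (ε / 4) * (1 + (Z : ℝ) ^ e))
      ≤ (C1 ^ 3 * (((Z : ℝ) ^ Q) ^ (ε / 4)) ^ 3 * (Z : ℝ) ^ (∑ n, wt (U n) (k n))) *
      (G * ((Z : ℝ) ^ Q) ^ (ε / 4) * (1 + (Z : ℝ) ^ e)) := by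
        gcongr
    _ = C1 ^ 3 * G * ((((Z : ℝ) ^ Q) ^ (ε / 4)) ^ 3 * ((Z : ℝ) ^ Q) ^ (ε / 4)) *
        (Z : ℝ) ^ (∑ n, wt (U n) (k n)) * (1 + (Z : ℝ) ^ e) := by ring
    _ = _ := by rw [hpw]

end Pool.Agent.Helper92.ABC
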